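import Pool.Agent.Work.MP_dc63d3_gt.K.Main

open Pool.Agent.Work.MP_dc63d3_gt.K

/-- For every real Hilbert space `H` and `k ≥ 1`, one map `r` retracts `H(n)` onto `H(k)` for
all `n`, with Lipschitz constant `120 (k + √m)` as soon as `n ≤ 2 ^ m` or `dim H ≤ m`. -/
theorem Pool.Agent.Results.MP_dc63d3_gt.AllLevels.result (H : Type) [NormedAddCommGroup H]
    [InnerProductSpace ℝ H] [CompleteSpace H] (k : ℕ) (hk : 1 ≤ k) :
    ∃ r : Finset H → Finset H, ∀ n m : ℕ, n ≤ 2 ^ m ∨ Module.rank ℝ H ≤ m →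
      IsRetr n k (120 * (k + Real.sqrt m)) r :=
  upper_all hk
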