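import Pool.Agent.Work.MP_dc63d3_gt.B.Up
import Pool.Agent.Work.MP_dc63d3_gt.B.Line

open Pool.Agent.Work.MP_dc63d3_gt

/-- In every metric space with a conical geodesic bicombing whose finite sets lie in complete
convex sets, the least Lipschitz constant of a retraction `X(n) → X(n-1)` has order exactly `n`:
it is at most `170 n`, and at least `n / 100` as soon as `X` has two points. -/
theorem Pool.Agent.Results.MP_dc63d3_gt.Bicombing.result (X : Type) [MetricSpace X]
    (σ : X → X → ℝ → X) (hσ : IsConical σ) (hc : HullsComplete σ) (n : ℕ) (hn : 2 ≤ n) :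
    (∃ r : Finset X → Finset X, IsLipRetr n (170 * n) r) ∧
      (Nontrivial X →
        ∀ (L : ℝ) (r : Finset X → Finset X), IsLipRetr n L r → (n : ℝ) / 100 ≤ L) :=
  ⟨upper_geo hσ hc hn, fun _ _ _ h => lower_geo hσ hn h⟩
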